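import Pool.Agent.Helper22_DEN2.Main2
import Pool.Agent.Helper22_DEN2.Pub2

/-!
# Lower bound for the number of cusp forms, and the proportion of non-tempered Hecke eigenvalues

`G` is a split simply laced group (types `A`, `D`, `E₆`, `E₇`, `E₈` and sums) over `F = 𝔽_q((1/t))`,
`X = G(F) / G(𝒪)`, `N` a nonzero polynomial divisible by the fourth power of an irreducible
polynomial `P₀`.  The dimension of the space of the cusp forms of level `N` is at least
`q ^ (-(2 deg P₀ + 1) (dim G)²) [Γ : Γ(N)]`, and the proportion of the cusp eigenforms of a spherical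
Hecke operator whose eigenvalue exceeds the tempered bound by the factor `q ^ (σ R deg v)` is at most
`(deg N)^r q ^ (O(1) - σ deg N)`.
-/

open scoped BigOperators

open Pool.Agent.DEN Pool.Agent.DEN.Pub

theorem Pool.Agent.H6.Old.AsymptoticRamanujan.result
    {r : ℕ} (hr : 0 < r) (C : Matrix (Fin r) (Fin r) ℤ) (hC : SimplyLaced C)
    (K : Type) [Field K] [Finite K] (P₀ N : Polynomial K) (hP₀ : Irreducible P₀) (hN : N ≠ 0)
    (hPN : P₀ ^ 4 ∣ N) :
    -- the cusp forms of level `N` are a finite dimensional space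
    (∀ f : X C K → ℂ, f ∈ cuspSpace C N ↔ Pub.IsCusp N f) ∧
    Module.Finite ℂ (cuspSpace C N) ∧
    -- its dimension is at least a constant times the index of `Γ(N)`
    idx C N ≤ Nat.card K ^ ((2 * P₀.natDegree + 1) * dimG C ^ 2) * dimCusp C N ∧
    -- the proportion of the eigenforms with a large Hecke eigenvalue
    ∀ (n : ℕ) (f : Fin n → X C K → ℂ), (∀ j, Pub.IsCusp N (f j)) →
      (∀ i j, Pub.petersson N (f i) (f j) = if i = j then 1 else 0) →
      ∀ (lam : Fin n → ℂ) (R : ℕ), 0 < R → ∀ τ σ : ℝ, 0 < τ → 0 ≤ σ →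
      -- the place `∞`
      (∀ κ : G C K → ℂ, Pub.HeckeInf κ R → (∀ j, Pub.EigenInf κ (lam j) (f j)) →
        Pub.NormLE (Pub.maxK C K) κ τ → (∀ j, (Nat.card K : ℝ) ^ (σ * R) * τ ≤ ‖lam j‖) →
        (n : ℝ) ≤ (N.natDegree : ℝ) ^ r *
          (Nat.card K : ℝ) ^ ((2 * P₀.natDegree + 1) * dimG C ^ 2) *
          (Nat.card K : ℝ) ^ (-(σ * ((N.natDegree : ℝ) - 2 * R))) * dimCusp C N) ∧
      -- the places `P` prime to `N`
      (∀ P : Polynomial K, 0 < P.natDegree → IsCoprime P N → ∀ κ : GP C K P → ℂ,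
        Pub.HeckeFin P κ R → (∀ j, Pub.EigenFin P N κ (lam j) (f j)) →
        Pub.NormLE (Γ C K P) κ τ →
        (∀ j, (Nat.card K : ℝ) ^ (σ * (R * P.natDegree : ℕ)) * τ ≤ ‖lam j‖) →
        (n : ℝ) ≤ (N.natDegree : ℝ) ^ r *
          (Nat.card K : ℝ) ^ ((2 * P₀.natDegree + 1) * dimG C ^ 2) *
          (Nat.card K : ℝ) ^ (-(σ * ((N.natDegree : ℝ) - 2 * (R * P.natDegree : ℕ)))) *
          dimCusp C N) :=
  H222.final2 H222.hLow hr C hC K P₀ N hP₀ hN hPN
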