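import Pool.Agent.Helper22_DEN.Asm
import Pool.Agent.Helper22_DEN.Pub

/-!
# A density theorem for the Hecke eigenvalues of cusp forms over `𝔽_q(t)`

`G` is a split simply laced group (types `A`, `D`, `E₆`, `E₇`, `E₈` and sums), `N` a nonzero
polynomial, `f_j` an orthonormal family of cusp forms of level `N` on `X = G(F) / G(𝒪)`,
`F = 𝔽_q((1/t))`, eigenfunctions of a spherical Hecke operator of radius `R` at the place `v`,
where `v = ∞` or `v` is (the set of places dividing) a nonconstant polynomial `P` prime to `N`.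
-/

open scoped BigOperators

open Pool.Agent.DEN Pool.Agent.DEN.Pub

theorem Pool.Agent.H6.Old.HeckeDensity.result
    {r : ℕ} (hr : 0 < r) (C : Matrix (Fin r) (Fin r) ℤ) (hC : SimplyLaced C)
    (K : Type) [Field K] [Finite K] (N : Polynomial K) (hN : N ≠ 0)
    (n : ℕ) (f : Fin n → X C K → ℂ) (hcusp : ∀ j, Pub.IsCusp N (f j))
    (horth : ∀ i j, Pub.petersson N (f i) (f j) = if i = j then 1 else 0)
    (lam : Fin n → ℂ) (R : ℕ) (hR : 0 < R) :
    -- the place `∞`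
    (∀ κ : G C K → ℂ, Pub.HeckeInf κ R → (∀ j, Pub.EigenInf κ (lam j) (f j)) →
      (2 * R < N.natDegree →
        ∑ j, ‖lam j‖ ^ 2 ≤ (N.natDegree : ℝ) ^ r * idx C N * Pub.normSq (Pub.maxK C K) κ) ∧
      (∀ τ σ : ℝ, 0 < τ → 0 ≤ σ → Pub.NormLE (Pub.maxK C K) κ τ →
        (∀ j, (Nat.card K : ℝ) ^ (σ * R) * τ ≤ ‖lam j‖) →
        (n : ℝ) ≤ (N.natDegree : ℝ) ^ r * idx C N *
          (Nat.card K : ℝ) ^ (-(σ * ((N.natDegree : ℝ) - 2 * R))))) ∧
    -- the places `P` prime to `N`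
    (∀ P : Polynomial K, 0 < P.natDegree → IsCoprime P N → ∀ κ : GP C K P → ℂ,
      Pub.HeckeFin P κ R → (∀ j, Pub.EigenFin P N κ (lam j) (f j)) →
      (2 * (R * P.natDegree) < N.natDegree →
        ∑ j, ‖lam j‖ ^ 2 ≤ (N.natDegree : ℝ) ^ r * idx C N * Pub.normSq (Γ C K P) κ) ∧
      (∀ τ σ : ℝ, 0 < τ → 0 ≤ σ → Pub.NormLE (Γ C K P) κ τ →
        (∀ j, (Nat.card K : ℝ) ^ (σ * (R * P.natDegree : ℕ)) * τ ≤ ‖lam j‖) →
        (n : ℝ) ≤ (N.natDegree : ℝ) ^ r * idx C N *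
          (Nat.card K : ℝ) ^ (-(σ * ((N.natDegree : ℝ) - 2 * (R * P.natDegree : ℕ)))))) :=
  H22.final H22.hBir H22.hVan H22.hBdg H22.hCnt H22.hThi H22.hThf H22.hTrf H26.ker hr C hC K N hN
    n f hcusp horth lam R hR
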